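import Mathlib
import Pool.Agent.H317.GH.Stm2
import Pool.Agent.H227.GR.TRZ

/-!
# Project GH, NSD: representations of degree `n` with infinite image are not self-dual
-/

set_option autoImplicit false

namespace Pool.Agent.H169.GH

open Matrix Pool.Agent.H317.GR Pool.Agent.H317.GH
open Pool.Agent.H227.GR (two_mem diff_map cp cp_mem emb_inj dl_trace)

/-- a homomorphism from the algebraic numbers to an algebraically closed field -/
theorem exists_emb (K : Type) [Field K] [IsAlgClosed K] [CharZero K] :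
    Nonempty (AlgebraicClosure ℚ →+* K) := by
  have hQ : Algebra.IsAlgebraic ℚ (AlgebraicClosure ℚ) := AlgebraicClosure.isAlgebraic ℚ
  exact ⟨(IsAlgClosed.lift (R := ℚ) (S := AlgebraicClosure ℚ) (M := K) :
    AlgebraicClosure ℚ →ₐ[ℚ] K).toRingHom⟩

theorem nsd : S_CNT → S_NFC → S_DSC → S_PAI → S_NSD := by
  intro hC hN hD hP n hn Λ _ _ hq1 hq2 ρ hρ K _ _ _ τ hτ
  by_contra hcon
  have hself : ∀ g, (τ g).val.trace = (τ g⁻¹).val.trace := by
    intro g
    by_contra h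
    exact hcon ⟨g, h⟩
  obtain ⟨ψ1, ψ2, hne, hset⟩ := Set.encard_eq_two.mp (hC n hn Λ hq1 hq2 (AlgebraicClosure ℚ))
  have hψ1 : ψ1 ∈ chars Λ n (AlgebraicClosure ℚ) \ finChars Λ n (AlgebraicClosure ℚ) := by
    rw [hset]; exact Or.inl rfl
  have hψ2 : ψ2 ∈ chars Λ n (AlgebraicClosure ℚ) \ finChars Λ n (AlgebraicClosure ℚ) := by
    rw [hset]; exact Or.inr rfl
  -- the character of `τ` is algebraic
  have hex : ∃ ψ ∈ chars Λ n (AlgebraicClosure ℚ) \ finChars Λ n (AlgebraicClosure ℚ),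
      ∀ g, ψ g = ψ g⁻¹ := by
    obtain ⟨j⟩ := exists_emb K
    have hτX : (fun g => (τ g).val.trace) ∈ chars Λ n K \ finChars Λ n K :=
      ⟨⟨τ, fun g => rfl⟩, hN n hn Λ hq1 K τ hτ⟩
    have hne' : (fun g => j (ψ1 g)) ≠ (fun g => j (ψ2 g)) := by
      intro h
      apply hne
      funext g
      exact j.injective (congrFun h g)
    have key : ∀ ψ : Λ → AlgebraicClosure ℚ, (fun g => (τ g).val.trace) = (fun g => j (ψ g)) →
        ∀ g, ψ g = ψ g⁻¹ := by
      intro ψ h g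
      apply j.injective
      have h1 := congrFun h g
      have h2 := congrFun h g⁻¹
      have h3 : (τ g).val.trace = j (ψ g) := h1
      have h4 : (τ g⁻¹).val.trace = j (ψ g⁻¹) := h2
      rw [← h3, ← h4]
      exact hself g
    rcases two_mem (hC n hn Λ hq1 hq2 K) (diff_map hD j hψ1) (diff_map hD j hψ2) hne' hτX with
      h | h
    · exact ⟨ψ1, hψ1, key ψ1 h⟩
    · exact ⟨ψ2, hψ2, key ψ2 h⟩
  obtain ⟨ψ, hψ, hinv⟩ := hex
  obtain ⟨j⟩ := exists_emb (AlgebraicClosure ℚ_[2])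
  obtain ⟨h1, ⟨g, h2⟩, h3, h4⟩ := hP n hn 2 Λ ρ hρ
  obtain ⟨h1', -, -, -⟩ := hP n hn 2 Λ ((dl n ℤ_[2]).comp ρ) h4
  have hne2 : cp ρ ≠ cp ((dl n ℤ_[2]).comp ρ) := by
    intro he
    apply h2
    have h5 := congrFun he g
    have h6 := emb_inj h5
    rw [h6, dl_trace]
  have hmem := diff_map hD j hψ
  rcases two_mem (hC n hn Λ hq1 hq2 (AlgebraicClosure ℚ_[2])) (cp_mem ρ h1)
    (cp_mem ((dl n ℤ_[2]).comp ρ) h1') hne2 hmem with h | h
  · apply h2
    have h5 : j (ψ g) = cp ρ g := congrFun h g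
    have h6 : j (ψ g⁻¹) = cp ρ g⁻¹ := congrFun h g⁻¹
    rw [hinv g, h6] at h5
    exact (emb_inj h5).symm
  · apply h2
    have h5 : j (ψ g) = cp ((dl n ℤ_[2]).comp ρ) g := congrFun h g
    have h6 : j (ψ g⁻¹) = cp ((dl n ℤ_[2]).comp ρ) g⁻¹ := congrFun h g⁻¹
    rw [hinv g, h6] at h5
    have h7 := emb_inj h5
    rw [dl_trace, dl_trace, inv_inv] at h7
    exact h7

end Pool.Agent.H169.GH
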